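import Pool.Agent.Y155.BKT.Theta
import Pool.Agent.H890.XY.Vil
import Pool.Agent.H890.XY.Z0m

/-!
# Dilution of the Villain model: explicit comparison
-/

set_option autoImplicit false

namespace Pool.Agent.Y155.BKT

open MeasureTheory Set Filter Topology Real
open Pool.Agent.H890.XY
open scoped ENNReal

/-- the factor of the comparison -/
noncomputable def kap (β β' : ℝ) : ℝ :=
  1 - Real.tanh (π ^ 2 * β / 4) * √(β' / (β' - β)) *
    Real.exp (-(π ^ 2 * β * β' / (2 * (β' - β))))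

/-- the constant subtracted from the Villain weight -/
noncomputable def c0 (β β' : ℝ) : ℝ :=
  √(β' / (β' - β)) * Real.exp (-(π ^ 2 * β * β' / (2 * (β' - β))))

/-- the upper bound of the Villain weight -/
noncomputable def MM (β : ℝ) : ℝ :=
  (1 + Real.exp (-(π ^ 2 * β / 2))) / (1 - Real.exp (-(π ^ 2 * β / 2)))

theorem MM_pos {β : ℝ} (hβ : 0 < β) : 0 < MM β := by
  unfold MM
  have h1 : Real.exp (-(π ^ 2 * β / 2)) < 1 := by
    rw [Real.exp_lt_one_iff]
    have := Real.pi_pos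
    have h2 : 0 < π ^ 2 * β / 2 := by positivity
    linarith
  have h2 := Real.exp_pos (-(π ^ 2 * β / 2))
  exact div_pos (by linarith) (by linarith)

theorem tanh_MM {β : ℝ} (hβ : 0 < β) : Real.tanh (π ^ 2 * β / 4) = 1 / MM β := by
  unfold MM
  have h1 : Real.exp (-(π ^ 2 * β / 2)) < 1 := by
    rw [Real.exp_lt_one_iff]
    have := Real.pi_pos
    have h2 : 0 < π ^ 2 * β / 2 := by positivity
    linarith
  obtain ⟨y, hy⟩ : ∃ y, y = π ^ 2 * β / 4 := ⟨_, rfl⟩
  have e1 : -(π ^ 2 * β / 2) = -y + -y := by rw [hy]; ring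
  rw [e1] at h1 ⊢
  rw [← hy, Real.tanh_eq_sinh_div_cosh, Real.sinh_eq, Real.cosh_eq, one_div_div]
  have h3 : 0 < 1 - Real.exp (-y + -y) := by linarith
  rw [Real.exp_add] at h1 h3 ⊢
  have h4 : Real.exp y * Real.exp (-y) = 1 := by rw [← Real.exp_add, add_neg_cancel, Real.exp_zero]
  have h5 := Real.exp_pos y
  have h6 := Real.exp_pos (-y)
  have h7 : 0 < 1 + Real.exp (-y) * Real.exp (-y) := by positivity
  rw [div_eq_div_iff (by positivity) h7.ne']
  linear_combination Real.exp (-y) * h4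

theorem kap_eq {β : ℝ} (hβ : 0 < β) (β' : ℝ) : kap β β' = 1 - c0 β β' / MM β := by
  unfold kap c0
  rw [tanh_MM hβ]
  ring

theorem c0_pos {β β' : ℝ} (hβ : 0 < β) (hlt : β < β') : 0 < c0 β β' := by
  have h1 : 0 < β' - β := by linarith
  have h2 : 0 < β' := hβ.trans hlt
  unfold c0
  have := Real.sqrt_pos.2 (div_pos h2 h1)
  have := Real.exp_pos (-(π ^ 2 * β * β' / (2 * (β' - β))))
  positivity

theorem vil_le {β : ℝ} (hβ : 0 < β) (t : TT) : vil β t ≤ MM β := by
  induction t using QuotientAddGroup.induction_on with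
  | H t => exact vR_le hβ t

theorem const_eq {β β' : ℝ} (hβ : 0 < β) (hlt : β < β') :
    (√(π / ((β' + β * β' / (β' - β)) / 2)))⁻¹ *
      Real.exp (-(β * β' / (β' - β)) * π ^ 2 / 2) * IV β' = c0 β β' := by
  have hd : 0 < β' - β := by linarith
  have hβ' : 0 < β' := hβ.trans hlt
  have hpi := Real.pi_pos
  have e1 : IV β' = √(2 * π / β') := int_vR hβ'
  have e2 : π / ((β' + β * β' / (β' - β)) / 2) = 2 * π * (β' - β) / β' ^ 2 := by
    have h2 : β' + β * β' / (β' - β) = β' ^ 2 / (β' - β) := by field_simp; ring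
    rw [h2]
    field_simp
  have e3 : (√(2 * π * (β' - β) / β' ^ 2))⁻¹ * √(2 * π / β') = √(β' / (β' - β)) := by
    rw [← Real.sqrt_inv, ← Real.sqrt_mul (by positivity)]
    congr 1
    field_simp
  have e4 : -(β * β' / (β' - β)) * π ^ 2 / 2 = -(π ^ 2 * β * β' / (2 * (β' - β))) := by
    field_simp
  rw [e1, e2, e4]
  unfold c0
  rw [← e3]
  ring

/-- decomposition of the Villain weight with explicit constants (the proof of
`Pool.Agent.H890.XY.vdecomp`) -/
theorem vdec {β β' : ℝ} (hβ : 0 < β) (hlt : β < β') :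
    ∃ ρ : ℝ → ℝ, (∀ s, 0 ≤ ρ s) ∧ Integrable ρ ∧
      ∀ t : TT, vil β t - c0 β β' =
        ∫ s : ℝ, ρ s * (vil β' (t - (s : ℝ)) + vil β' (t + (s : ℝ))) := by
  have h1 := Pool.Agent.H890.XY.v1
  have hβ' : 0 < β' := hβ.trans hlt
  have hd : 0 < β' - β := by linarith
  have hpi := Real.pi_pos
  have h3 := conv hβ hlt
  rw [← const_eq hβ hlt]
  obtain ⟨β1, hβ1e⟩ : ∃ β1 : ℝ, β1 = β * β' / (β' - β) := ⟨_, rfl⟩
  have hβ1 : 0 < β1 := by rw [hβ1e]; positivity
  rw [← hβ1e]
  simp only [← hβ1e] at h3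
  obtain ⟨C, hCe⟩ : ∃ C : ℝ, C = (√(π / ((β' + β1) / 2)))⁻¹ := ⟨_, rfl⟩
  have hC : 0 < C := by rw [hCe]; exact inv_pos.2 (Real.sqrt_pos.2 (by positivity))
  rw [← hCe]
  simp only [← hCe] at h3
  have hI := IV_pos h1 hβ'
  set γ : ℝ → ℝ := fun s => Real.exp (-β1 * s ^ 2 / 2) with hγ
  set m : ℝ := Real.exp (-β1 * π ^ 2 / 2) with hm
  have hm0 : 0 < m := Real.exp_pos _
  set χ : ℝ → ℝ := (Icc (-π) π).indicator (fun _ => (1 : ℝ)) with hχ
  have hγi : Integrable γ := by
    have := integrable_exp_neg_mul_sq (b := β1 / 2) (by positivity)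
    refine this.congr (Eventually.of_forall fun s => ?_)
    simp only [hγ]; congr 1; ring
  have hχi : Integrable χ :=
    (integrable_indicator_iff measurableSet_Icc).2 (integrableOn_const (by simp))
  refine ⟨fun s => C / 2 * (γ s - m * χ s), ?_, ?_, ?_⟩
  · intro s
    refine mul_nonneg (by positivity) ?_
    by_cases hs : s ∈ Icc (-π) π
    · have : χ s = 1 := by simp [hχ, hs]
      rw [this]
      have h5 : m ≤ γ s := by
        simp only [hγ, hm]
        refine Real.exp_le_exp.2 ?_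
        have : s ^ 2 ≤ π ^ 2 := by nlinarith [hs.1, hs.2]
        nlinarith
      linarith
    · have : χ s = 0 := by simp [hχ, hs]
      rw [this]
      have := Real.exp_pos (-β1 * s ^ 2 / 2)
      simp only [hγ]; linarith
  · exact (hγi.sub (hχi.const_mul m)).const_mul _
  · intro t
    have hper := per_int h1 hβ' t
    obtain ⟨Cv, hCv0, hCv⟩ := bdd_of_cont (h1 β' hβ').2.2.2
    have hvc : Continuous (vil β') := (h1 β' hβ').2.2.2
    have hcoe : Continuous (fun s : ℝ => (s : TT)) := AddCircle.continuous_mk' (2 * π)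
    have hcs : Continuous (fun s : ℝ => vil β' (t - (s : ℝ)) + vil β' (t + (s : ℝ))) :=
      (hvc.comp (continuous_const.sub hcoe)).add (hvc.comp (continuous_const.add hcoe))
    have hint : ∀ g : ℝ → ℝ, Integrable g → Integrable (fun s : ℝ => g s *
        (vil β' (t - (s : ℝ)) + vil β' (t + (s : ℝ)))) := by
      intro g hg
      have := hg.bdd_mul (c := Cv + Cv) hcs.aestronglyMeasurable (Eventually.of_forall fun z => by
        rw [Real.norm_eq_abs]
        exact (abs_add_le _ _).trans (add_le_add (hCv _) (hCv _)))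
      refine this.congr (Eventually.of_forall fun s => ?_)
      simp only []; ring
    have e1 : ∀ s : ℝ, C / 2 * (γ s - m * χ s) * (vil β' (t - (s : ℝ)) + vil β' (t + (s : ℝ))) =
        C / 2 * (γ s * (vil β' (t - (s : ℝ)) + vil β' (t + (s : ℝ)))) -
        C / 2 * m * (χ s * (vil β' (t - (s : ℝ)) + vil β' (t + (s : ℝ)))) := by intro s; ring
    simp_rw [e1]
    rw [integral_sub ((hint γ hγi).const_mul _) ((hint χ hχi).const_mul _), integral_const_mul,
      integral_const_mul, hper]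
    have e2 : ∫ s : ℝ, γ s * (vil β' (t - (s : ℝ)) + vil β' (t + (s : ℝ))) = 2 * (vil β t / C) := by
      induction t using QuotientAddGroup.induction_on with
      | H t =>
        obtain ⟨hi, he⟩ := h3 t
        change ∫ s : ℝ, γ s * (vR β' (t - s) + vR β' (t + s)) = 2 * (vR β t / C)
        have e3 : ∀ s : ℝ, γ s * (vR β' (t - s) + vR β' (t + s)) =
          vR β' (t - s) * γ s + vR β' (t - -s) * γ (-s) := by
          intro s
          have : γ (-s) = γ s := by simp [hγ]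
          rw [this]; ring_nf
        simp_rw [e3]
        rw [integral_add hi (hi.comp_neg), integral_neg_eq_self (fun s => vR β' (t - s) * γ s) volume]
        have he' : vR β t = C * ∫ s : ℝ, vR β' (t - s) * γ s := he
        have he2 : vR β t / C = ∫ s : ℝ, vR β' (t - s) * γ s := by
          rw [he']; exact mul_div_cancel_left₀ _ hC.ne'
        rw [he2]
        change (∫ s : ℝ, vR β' (t - s) * γ s) + (∫ s : ℝ, vR β' (t - s) * γ s) = _
        exact (two_mul _).symm
    rw [e2]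
    field_simp

/-- the one-edge inequality with the explicit factor -/
theorem SEq {β β' : ℝ} (hβ : 0 < β) (hlt : β < β') (Λ : Finset Vx) (J : Ed → ℝ) (B : Finset Ed)
    (x u v : Vx) :
    NN Λ J B x u v (vil β) / ZZ Λ J B u v (vil β) ≤
      NN Λ J B x u v (fun _ => 1) / ZZ Λ J B u v (fun _ => 1) +
      kap β β' * (NN Λ J B x u v (vil β') / ZZ Λ J B u v (vil β') -
        NN Λ J B x u v (fun _ => 1) / ZZ Λ J B u v (fun _ => 1)) := by
  have h1 := Pool.Agent.H890.XY.v1
  have h2 := Pool.Agent.H890.XY.v2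
  have hβ' : 0 < β' := hβ.trans hlt
  obtain ⟨ρ, hρ, hρi, hdec⟩ := vdec hβ hlt
  have hvc : Continuous (vil β) := (h1 β hβ).2.2.2
  have hvc' : Continuous (vil β') := (h1 β' hβ').2.2.2
  rw [kap_eq hβ]
  obtain ⟨c, hc⟩ : ∃ c, c = c0 β β' := ⟨_, rfl⟩
  obtain ⟨M, hMe⟩ : ∃ M, M = MM β := ⟨_, rfl⟩
  have hc0 : 0 < c := by rw [hc]; exact c0_pos hβ hlt
  have hM0 : 0 < M := by rw [hMe]; exact MM_pos hβ
  have hM : ∀ t, vil β t ≤ M := fun t => by rw [hMe]; exact vil_le hβ t
  rw [← hc, ← hMe]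
  rw [← hc] at hdec
  have hP := Pint Λ J B x u v h1 h2 hβ' ρ hρ hρi (fun t => 1 * vil β t + -c) (by fun_prop)
    (fun t => by rw [← hdec]; ring)
  rw [NN_affine Λ J B x u v h1 hvc, ZZ_affine Λ J B u v h1 hvc] at hP
  have hM0' := M0 h1 h2 Λ J B x u v hβ'
  have z1 : 0 < ZZ Λ J B u v (fun _ => 1) := ZZ_pos Λ J B u v h1 continuous_const fun _ => one_pos
  have zb : 0 < ZZ Λ J B u v (vil β) := ZZ_pos Λ J B u v h1 hvc fun t => vil_pos h1 hβ t
  have zw : 0 < ZZ Λ J B u v (vil β') := ZZ_pos Λ J B u v h1 hvc' fun t => vil_pos h1 hβ' t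
  have zM : ZZ Λ J B u v (vil β) ≤ M * ZZ Λ J B u v (fun _ => 1) := by
    have h5 := ZZ_affine Λ J B u v h1 (g := fun _ => 1) continuous_const M 0
    have h6 := ZZ_mono Λ J B u v h1 hvc (g' := fun t => M * 1 + 0) continuous_const fun t => by
      have := hM t
      linarith
    rw [h5] at h6
    linarith
  set N1 := NN Λ J B x u v (fun _ => 1)
  set Z1 := ZZ Λ J B u v (fun _ => 1)
  set Nb := NN Λ J B x u v (vil β)
  set Zb := ZZ Λ J B u v (vil β)
  set Nw := NN Λ J B x u v (vil β')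
  set Zw := ZZ Λ J B u v (vil β')
  have hD : 0 ≤ Nw / Zw - N1 / Z1 := by
    rw [sub_nonneg, div_le_div_iff₀ z1 zw]
    exact hM0'
  set D := Nw / Zw - N1 / Z1 with hDdef
  have hNb : Nb ≤ Nw / Zw * (Zb - c * Z1) + c * N1 := by
    have h7 : (Nb - c * N1) * Zw ≤ Nw * (Zb - c * Z1) := by linarith
    have h8 : Nb - c * N1 ≤ Nw * (Zb - c * Z1) / Zw := by
      rw [le_div_iff₀ zw]; exact h7
    have h9 : Nw * (Zb - c * Z1) / Zw = Nw / Zw * (Zb - c * Z1) := by ring
    linarith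
  have h10 : Nw / Zw * (Zb - c * Z1) + c * N1 = Nw / Zw * Zb - c * Z1 * D := by
    rw [hDdef]
    have : c * Z1 * (N1 / Z1) = c * N1 := by field_simp
    linear_combination -this
  have h11 : Nb / Zb ≤ Nw / Zw - c * Z1 / Zb * D := by
    rw [div_le_iff₀ zb]
    have : (Nw / Zw - c * Z1 / Zb * D) * Zb = Nw / Zw * Zb - c * Z1 * D := by
      field_simp
    rw [this, ← h10]; exact hNb
  have h12 : c / M ≤ c * Z1 / Zb := by
    rw [div_le_div_iff₀ hM0 zb]
    have := mul_le_mul_of_nonneg_left zM hc0.le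
    linarith
  have h13 : c / M * D ≤ c * Z1 / Zb * D := mul_le_mul_of_nonneg_right h12 hD
  have h14 : Nw / Zw = N1 / Z1 + D := by rw [hDdef]; ring
  linarith

/-- the factor lies in `[0, 1)` -/
theorem kap_mem {β β' : ℝ} (hβ : 0 < β) (hlt : β < β') : 0 ≤ kap β β' ∧ kap β β' < 1 := by
  have hM0 := MM_pos hβ
  have hc0 := c0_pos hβ hlt
  rw [kap_eq hβ]
  constructor
  · obtain ⟨ρ, hρ, -, hdec⟩ := vdec hβ hlt
    have h1 := hdec 0
    have h2 : 0 ≤ ∫ s : ℝ, ρ s * (vil β' ((0 : TT) - (s : ℝ)) + vil β' ((0 : TT) + (s : ℝ))) :=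
      integral_nonneg fun s => mul_nonneg (hρ s)
        (add_nonneg (vil_pos Pool.Agent.H890.XY.v1 (hβ.trans hlt) _).le
          (vil_pos Pool.Agent.H890.XY.v1 (hβ.trans hlt) _).le)
    have h3 := vil_le hβ 0
    have h4 : c0 β β' ≤ MM β := by linarith
    have h5 : c0 β β' / MM β ≤ 1 := (div_le_one hM0).2 h4
    linarith
  · have : 0 < c0 β β' / MM β := div_pos hc0 hM0
    linarith

/-- **Explicit comparison.** -/
theorem transfer {β β' : ℝ} (hβ : 0 < β) (hlt : β < β') (p p' : unitInterval)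
    (hp : kap β β' * p ≤ p') (x : Vx) : avg kV p β x ≤ avg kV p' β' x := by
  refine Gen.avg_le goodV (fun Λ J B x u v => ?_) x
  have hs : FFk kV Λ J B x u v (kV β) ≤ FFk kV Λ J B x u v (fun _ => 1) +
      kap β β' * (FFk kV Λ J B x u v (kV β') - FFk kV Λ J B x u v (fun _ => 1)) := by
    rw [kV_of_pos hβ, kV_of_pos (hβ.trans hlt)]
    exact SEq hβ hlt Λ J B x u v
  have hm := Gen.FF_one_le goodV Λ J B x u v β'
  have hp0 := p.2.1
  have h2 : (p : ℝ) * FFk kV Λ J B x u v (kV β) ≤ p * (FFk kV Λ J B x u v (fun _ => 1) +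
    kap β β' * (FFk kV Λ J B x u v (kV β') - FFk kV Λ J B x u v (fun _ => 1))) :=
    mul_le_mul_of_nonneg_left hs hp0
  have h3 : kap β β' * p * (FFk kV Λ J B x u v (kV β') - FFk kV Λ J B x u v (fun _ => 1)) ≤
    p' * (FFk kV Λ J B x u v (kV β') - FFk kV Λ J B x u v (fun _ => 1)) :=
    mul_le_mul_of_nonneg_right hp (by linarith)
  linarith

/-- **Persistence with an explicit dilution.** -/
theorem persist {β β' : ℝ} (hKT : betaKT < ENNReal.ofReal β) (hlt : β < β') (p : unitInterval)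
    (hp : kap β β' ≤ p) : Poly1 (avg kV p β') := by
  obtain ⟨b, ⟨β0, hβ0, rfl, hP⟩, hb⟩ := sInf_lt_iff.1 hKT
  have hlt' : β0 < β := (ENNReal.ofReal_lt_ofReal_iff_of_nonneg hβ0).1 hb
  have e1 : (fun x => tpInf kV β0 (fun _ => true) x) = avg kV 1 β0 := by
    funext x; exact (avg_one kV β0 x).symm
  rw [e1] at hP
  rcases hβ0.eq_or_lt with rfl | hpos
  · exfalso
    obtain ⟨c, C, hc, hC, hP⟩ := hP
    have h1 := hP (1, 0)
    rw [z0m kV (kV_nonpos (lt_irrefl 0)) 1 (1, 0) (by simp)] at h1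
    have h2 : 0 < c * (1 + Real.sqrt ((((1 : ℤ), (0 : ℤ)).1 : ℝ) ^ 2 +
        (((1 : ℤ), (0 : ℤ)).2 : ℝ) ^ 2)) ^ (-C) := by positivity
    linarith
  · refine hP.mono fun x => (Gen.mono_β goodV hpos hlt'.le 1 x).trans ?_
    refine transfer (hpos.trans hlt') hlt 1 p ?_ x
    have : kap β β' * ((1 : unitInterval) : ℝ) = kap β β' := by simp
    rw [this]
    exact hp

theorem kap_cont {b β : ℝ} (hb : b < β) : ContinuousAt (fun x : ℝ => kap x β) b := by
  have h0 : β - b ≠ 0 := (by linarith : 0 < β - b).ne'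
  have h1 : ContinuousAt (fun x : ℝ => β / (β - x)) b :=
    ContinuousAt.div continuousAt_const (by fun_prop) h0
  have h2 : ContinuousAt (fun x : ℝ => π ^ 2 * x * β / (2 * (β - x))) b :=
    ContinuousAt.div (by fun_prop) (by fun_prop) (mul_ne_zero two_ne_zero h0)
  have h3 : ContinuousAt (fun x : ℝ => Real.tanh (π ^ 2 * x / 4)) b := by
    have e : (fun x : ℝ => Real.tanh (π ^ 2 * x / 4)) =
        fun x : ℝ => Real.sinh (π ^ 2 * x / 4) / Real.cosh (π ^ 2 * x / 4) := by
      funext x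
      exact Real.tanh_eq_sinh_div_cosh _
    rw [e]
    exact ContinuousAt.div ((Real.continuous_sinh.comp (by fun_prop)).continuousAt)
      ((Real.continuous_cosh.comp (by fun_prop)).continuousAt) (Real.cosh_pos _).ne'
  unfold kap
  exact continuousAt_const.sub ((h3.mul (Real.continuous_sqrt.continuousAt.comp h1)).mul
    (Real.continuous_exp.continuousAt.comp h2.neg))

/-- **The threshold in terms of the critical inverse temperature.** -/
theorem threshold {β : ℝ} (hKT : betaKT < ENNReal.ofReal β) (p : unitInterval)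
    (hp : kap betaKT.toReal β < p) : Poly1 (avg kV p β) := by
  have hne : betaKT ≠ ⊤ := (hKT.trans_le le_top).ne
  obtain ⟨b, hb⟩ : ∃ b, b = betaKT.toReal := ⟨_, rfl⟩
  have hb0 : 0 ≤ b := by rw [hb]; exact ENNReal.toReal_nonneg
  have hbe : betaKT = ENNReal.ofReal b := by rw [hb, ENNReal.ofReal_toReal hne]
  have hbβ : b < β := by
    rw [hbe] at hKT
    exact (ENNReal.ofReal_lt_ofReal_iff_of_nonneg hb0).1 hKT
  rw [← hb] at hp
  obtain ⟨x, hx, h1, h2⟩ := (((kap_cont hbβ).eventually (gt_mem_nhds hp)).and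
    (eventually_lt_nhds hbβ)).exists_gt
  refine persist (β := x) ?_ h2 p h1.le
  rw [hbe]
  exact (ENNReal.ofReal_lt_ofReal_iff_of_nonneg hb0).2 hx

end Pool.Agent.Y155.BKT
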