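import Pool.Agent.H890.XY.V3
import Pool.Agent.H890.XY.V1

/-!
# The Villain weight: explicit constants

`vR β t = ∑ exp(-β (t + 2 π k)² / 2)`: the integral over a period, an upper bound, and the
convolution identity with its constants.
-/

set_option autoImplicit false

namespace Pool.Agent.Y155.BKT

open MeasureTheory Set Filter Topology Real
open Pool.Agent.H890.XY

/-- the integral of the Villain weight over a period -/
theorem int_vR {β : ℝ} (hβ : 0 < β) : ∫ s in (-π)..π, vR β s = √(2 * π / β) := by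
  obtain ⟨F, hF⟩ : ∃ F : ℤ → ℝ → ℝ,
    F = fun (k : ℤ) (s : ℝ) => Real.exp (-β * (s + 2 * π * k) ^ 2 / 2) := ⟨_, rfl⟩
  have hFc : ∀ k, Continuous (F k) := fun k => by rw [hF]; fun_prop
  have hFn : ∀ k s, 0 ≤ F k s := fun k s => by rw [hF]; positivity
  have hpi := Real.pi_pos
  have hg : Integrable (fun y : ℝ => Real.exp (-β * y ^ 2 / 2)) := by
    have := integrable_exp_neg_mul_sq (b := β / 2) (by positivity)
    refine this.congr (Eventually.of_forall fun s => ?_)
    show Real.exp (-(β / 2) * s ^ 2) = Real.exp (-β * s ^ 2 / 2)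
    congr 1
    ring
  have hgv : ∫ y : ℝ, Real.exp (-β * y ^ 2 / 2) = √(2 * π / β) := by
    have h1 := integral_gaussian (β / 2)
    have e1 : π / (β / 2) = 2 * π / β := by field_simp
    rw [e1] at h1
    rw [← h1]
    refine integral_congr_ae (Eventually.of_forall fun s => ?_)
    show Real.exp (-β * s ^ 2 / 2) = Real.exp (-(β / 2) * s ^ 2)
    congr 1
    ring
  have hG : Integrable (fun y : ℝ => Real.exp (-β * (y - π) ^ 2 / 2)) := hg.comp_sub_right π
  have hGv : ∫ y : ℝ, Real.exp (-β * (y - π) ^ 2 / 2) = √(2 * π / β) := by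
    rw [← hgv]
    exact integral_sub_right_eq_self (fun y : ℝ => Real.exp (-β * y ^ 2 / 2)) π
  have hH : Integrable (fun x : ℝ => Real.exp (-β * (2 * π * x - π) ^ 2 / 2)) :=
    hG.comp_mul_left' (by positivity : (2 * π : ℝ) ≠ 0)
  have hHv : ∫ x : ℝ, Real.exp (-β * (2 * π * x - π) ^ 2 / 2) = (2 * π)⁻¹ * √(2 * π / β) := by
    have h1 := Measure.integral_comp_mul_left
      (fun y : ℝ => Real.exp (-β * (y - π) ^ 2 / 2)) (2 * π)
    rw [hGv, abs_of_pos (by positivity), smul_eq_mul] at h1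
    exact h1
  have hsum := hH.hasSum_intervalIntegral_comp_add_int
  rw [hHv] at hsum
  have hpiece : ∀ n : ℤ, ∫ x in (0 : ℝ)..1, Real.exp (-β * (2 * π * (x + n) - π) ^ 2 / 2) =
      (2 * π)⁻¹ * ∫ s in (-π)..π, F n s := by
    intro n
    have h1 := intervalIntegral.integral_comp_mul_sub (a := 0) (b := 1) (F n)
      (by positivity : (2 * π : ℝ) ≠ 0) π
    have e1 : (2 * π * 0 - π : ℝ) = -π := by ring
    have e2 : (2 * π * 1 - π : ℝ) = π := by ring
    rw [e1, e2, smul_eq_mul] at h1
    rw [← h1]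
    refine intervalIntegral.integral_congr fun x _ => ?_
    rw [hF]
    show Real.exp (-β * (2 * π * (x + n) - π) ^ 2 / 2) =
      Real.exp (-β * (2 * π * x - π + 2 * π * n) ^ 2 / 2)
    congr 3
    ring
  simp only [hpiece] at hsum
  have hsum2 : HasSum (fun n : ℤ => ∫ s in (-π)..π, F n s) (√(2 * π / β)) := by
    have h1 := hsum.mul_left (2 * π)
    have e : ∀ z : ℝ, 2 * π * ((2 * π)⁻¹ * z) = z := fun z => by field_simp
    simp only [e] at h1
    exact h1
  have hle : (-π : ℝ) ≤ π := by linarith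
  have hsum3 : HasSum (fun n : ℤ => ∫ s, F n s ∂(volume.restrict (Ioc (-π) π)))
      (√(2 * π / β)) := by
    simp only [intervalIntegral.integral_of_le hle] at hsum2
    exact hsum2
  have h2 := hasSum_integral_of_summable_integral_norm (μ := volume.restrict (Ioc (-π) π))
    (F := F) (fun n => ((hFc n).integrableOn_Icc (a := -π) (b := π)).mono_set Ioc_subset_Icc_self)
    (by
      refine hsum3.summable.congr fun n => ?_
      refine integral_congr_ae (Eventually.of_forall fun s => ?_)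
      exact (Real.norm_of_nonneg (hFn n s)).symm)
  rw [intervalIntegral.integral_of_le hle]
  have h3 := h2.unique hsum3
  rw [← h3]
  refine integral_congr_ae (Eventually.of_forall fun s => ?_)
  rw [hF]
  rfl

/-- an upper bound of the Villain weight -/
theorem vR_le {β : ℝ} (hβ : 0 < β) (t : ℝ) :
    vR β t ≤ (1 + Real.exp (-(π ^ 2 * β / 2))) / (1 - Real.exp (-(π ^ 2 * β / 2))) := by
  obtain ⟨y, hy, hty⟩ := (vR_periodic β).exists_mem_Ico Real.two_pi_pos t (-π)
  rw [hty]
  have hpi := Real.pi_pos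
  have hy' : |y| ≤ π := by
    rw [abs_le]
    exact ⟨hy.1, by have := hy.2; linarith⟩
  obtain ⟨r, hr⟩ : ∃ r, r = Real.exp (-(π ^ 2 * β / 2)) := ⟨_, rfl⟩
  have hr0 : 0 < r := by rw [hr]; exact Real.exp_pos _
  have hr1 : r < 1 := by
    rw [hr, Real.exp_lt_one_iff]
    have : 0 < π ^ 2 * β / 2 := by positivity
    linarith
  rw [← hr]
  have hs : HasSum (fun k : ℤ => r ^ k.natAbs) ((1 + r) / (1 - r)) := by
    have h1 := hasSum_geometric_of_lt_one hr0.le hr1
    have h2 := HasSum.of_nat_of_neg_add_one (f := fun k : ℤ => r ^ k.natAbs) (m := (1 - r)⁻¹)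
      (m' := (1 - r)⁻¹ * r) (by
        simp only [Int.natAbs_natCast]
        exact h1) (by
        have h3 := h1.mul_right r
        refine h3.congr_fun fun n => ?_
        have e1 : (-((n : ℤ) + 1)).natAbs = n + 1 := by omega
        rw [e1, pow_succ])
    have e : (1 - r)⁻¹ + (1 - r)⁻¹ * r = (1 + r) / (1 - r) := by
      field_simp
    rw [e] at h2
    exact h2
  have hle : ∀ k : ℤ, Real.exp (-β * (y + 2 * π * k) ^ 2 / 2) ≤ r ^ k.natAbs := by
    intro k
    rw [hr, ← Real.exp_nat_mul]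
    apply Real.exp_le_exp.2
    have hk : ((k.natAbs : ℕ) : ℝ) = |(k : ℝ)| := by
      rw [Nat.cast_natAbs, Int.cast_abs]
    rw [hk]
    by_cases hk0 : k = 0
    · rw [hk0]
      have : 0 ≤ β * y ^ 2 := by positivity
      push_cast
      rw [abs_zero]
      linarith
    · have hk1 : 1 ≤ |(k : ℝ)| := by
        rw [← Int.cast_abs]
        exact_mod_cast Int.one_le_abs hk0
      have h1 : π * |(k : ℝ)| ≤ |y + 2 * π * k| := by
        have h2 : |2 * π * (k : ℝ)| ≤ |y + 2 * π * k| + |y| := by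
          have e1 : 2 * π * (k : ℝ) = (y + 2 * π * k) - y := by ring
          calc |2 * π * (k : ℝ)| = |(y + 2 * π * k) - y| := by rw [← e1]
            _ ≤ |y + 2 * π * k| + |y| := abs_sub _ _
        rw [abs_mul, abs_of_pos Real.two_pi_pos] at h2
        have h3 : π * 1 ≤ π * |(k : ℝ)| := mul_le_mul_of_nonneg_left hk1 hpi.le
        linarith
      have h4 : π ^ 2 * |(k : ℝ)| ≤ (y + 2 * π * k) ^ 2 := by
        have h5 : (π * |(k : ℝ)|) ^ 2 ≤ |y + 2 * π * k| ^ 2 :=
          pow_le_pow_left₀ (by positivity) h1 2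
        rw [sq_abs, mul_pow] at h5
        have h6 : |(k : ℝ)| ≤ |(k : ℝ)| ^ 2 := by nlinarith
        have h7 : π ^ 2 * |(k : ℝ)| ≤ π ^ 2 * |(k : ℝ)| ^ 2 :=
          mul_le_mul_of_nonneg_left h6 (by positivity)
        linarith
      have h8 := mul_le_mul_of_nonneg_left h4 (by positivity : 0 ≤ β / 2)
      linarith
  unfold vR
  rw [← hs.tsum_eq]
  exact (V3.summable_gauss β hβ y).tsum_le_tsum hle hs.summable

/-- the convolution identity with its constants (the proof of `Pool.Agent.H890.XY.v3`) -/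
theorem conv {β β' : ℝ} (hβ : 0 < β) (hlt : β < β') (t : ℝ) :
    Integrable (fun s : ℝ => vR β' (t - s) * Real.exp (-(β * β' / (β' - β)) * s ^ 2 / 2)) ∧
      vR β t = (√(π / ((β' + β * β' / (β' - β)) / 2)))⁻¹ *
        ∫ s : ℝ, vR β' (t - s) * Real.exp (-(β * β' / (β' - β)) * s ^ 2 / 2) := by
  have hβ' : 0 < β' := hβ.trans hlt
  obtain ⟨β1, hβ1⟩ : ∃ β1 : ℝ, β1 = β * β' / (β' - β) := ⟨_, rfl⟩
  rw [← hβ1]
  have hd : 0 < β' - β := by linarith
  have hβ1p : 0 < β1 := by rw [hβ1]; positivity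
  have hβeq : β' * β1 / (β' + β1) = β := by
    rw [hβ1]
    have h2 : β' + β * β' / (β' - β) = β' ^ 2 / (β' - β) := by field_simp; ring
    rw [h2]
    field_simp
  obtain ⟨C0, hC0⟩ : ∃ C0 : ℝ, C0 = Real.sqrt (π / ((β' + β1) / 2)) := ⟨_, rfl⟩
  rw [← hC0]
  have hC0p : 0 < C0 := by rw [hC0]; exact Real.sqrt_pos.2 (by positivity)
  let F : ℤ → ℝ → ℝ := fun k s =>
    Real.exp (-β' * ((t + 2 * π * k) - s) ^ 2 / 2) * Real.exp (-β1 * s ^ 2 / 2)
  have hFi : ∀ k, Integrable (F k) := fun k => V3.gauss_integrable hβ' hβ1p _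
  have hFint : ∀ k, ∫ s, F k s = C0 * Real.exp (-β * (t + 2 * π * k) ^ 2 / 2) := fun k => by
    rw [V3.gauss_integral hβ' hβ1p, hβeq, hC0]
  have hFnn : ∀ k s, 0 ≤ F k s := fun k s => by positivity
  have hFnorm : ∀ k, ∫ s, ‖F k s‖ = C0 * Real.exp (-β * (t + 2 * π * k) ^ 2 / 2) := fun k => by
    rw [← hFint k]
    exact integral_congr_ae (Eventually.of_forall fun s => Real.norm_of_nonneg (hFnn k s))
  have hsum : Summable (fun k => ∫ s, ‖F k s‖) := by
    simp_rw [hFnorm]
    exact (V3.summable_gauss β hβ t).mul_left C0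
  have hFs : ∀ s, Summable (fun k => F k s) := fun s => by
    have h := (V3.summable_gauss β' hβ' (t - s)).mul_right (Real.exp (-β1 * s ^ 2 / 2))
    refine h.congr fun k => ?_
    show _ = Real.exp (-β' * ((t + 2 * π * k) - s) ^ 2 / 2) * Real.exp (-β1 * s ^ 2 / 2)
    congr 3
    ring
  have hts : ∀ s, ∑' k, F k s = vR β' (t - s) * Real.exp (-β1 * s ^ 2 / 2) := fun s => by
    unfold vR
    rw [← tsum_mul_right]
    refine tsum_congr fun k => ?_
    show Real.exp (-β' * ((t + 2 * π * k) - s) ^ 2 / 2) * Real.exp (-β1 * s ^ 2 / 2) = _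
    congr 3
    ring
  have hHS := hasSum_integral_of_summable_integral_norm hFi hsum
  constructor
  · have hvc : Continuous (fun s : ℝ => vR β' (t - s)) :=
      ((Pool.Agent.H890.XY.v1 β' hβ').1).comp (continuous_const.sub continuous_id)
    have hmeas : AEStronglyMeasurable (fun s => ∑' k, F k s) volume := by
      have e : (fun s => ∑' k, F k s) = fun s => vR β' (t - s) * Real.exp (-β1 * s ^ 2 / 2) :=
        funext hts
      rw [e]
      exact (hvc.mul (by fun_prop)).aestronglyMeasurable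
    have hint : Integrable (fun s => ∑' k, F k s) := by
      refine ⟨hmeas, ?_⟩
      rw [hasFiniteIntegral_iff_enorm]
      have h1 : ∀ s, ‖∑' k, F k s‖ₑ = ∑' k, ENNReal.ofReal (F k s) := fun s => by
        rw [Real.enorm_eq_ofReal (tsum_nonneg fun k => hFnn k s),
          ENNReal.ofReal_tsum_of_nonneg (fun k => hFnn k s) (hFs s)]
      simp_rw [h1]
      rw [lintegral_tsum fun k => (hFi k).aestronglyMeasurable.aemeasurable.ennreal_ofReal]
      have h2 : ∀ k, ∫⁻ s, ENNReal.ofReal (F k s) = ENNReal.ofReal (∫ s, ‖F k s‖) := fun k => by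
        rw [ofReal_integral_eq_lintegral_ofReal (hFi k).norm
          (Eventually.of_forall fun s => norm_nonneg _)]
        exact lintegral_congr fun s => by rw [Real.norm_of_nonneg (hFnn k s)]
      simp_rw [h2]
      rw [← ENNReal.ofReal_tsum_of_nonneg (fun k => integral_nonneg fun s => norm_nonneg _) hsum]
      exact ENNReal.ofReal_lt_top
    exact hint.congr (Eventually.of_forall fun s => hts s)
  · have h3 : ∫ s, vR β' (t - s) * Real.exp (-β1 * s ^ 2 / 2) = C0 * vR β t := by
      rw [← integral_congr_ae (Eventually.of_forall fun s => hts s), ← hHS.tsum_eq]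
      simp_rw [hFint]
      rw [tsum_mul_left]
      rfl
    rw [h3, ← mul_assoc, inv_mul_cancel₀ hC0p.ne', one_mul]

end Pool.Agent.Y155.BKT
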