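import Pool.Agent.Y155.BKT.Quant

/-!
# Dilution of the Villain model: a modulus of continuity of the critical temperature
-/

set_option autoImplicit false

namespace Pool.Agent.Y155.BKT

open MeasureTheory Set Filter Topology Real
open Pool.Agent.H890.XY
open scoped ENNReal

theorem betac0V (p : unitInterval) : betac0 kV p = betac kV p :=
  betac0_eq z0m (kV_nonpos (lt_irrefl 0)) p

/-- comparison of the critical inverse temperatures -/
theorem vc_le {p p' : unitInterval} {β β' : ℝ} (h : betac0 kV p < ENNReal.ofReal β)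
    (hlt : β < β') (hp : kap β β' * p ≤ p') : betac0 kV p' ≤ ENNReal.ofReal β' := by
  rw [betac0V] at h ⊢
  obtain ⟨b, ⟨β0, hβ0, rfl, hP⟩, hb⟩ := sInf_lt_iff.1 h
  have hlt' : β0 < β := (ENNReal.ofReal_lt_ofReal_iff_of_nonneg hβ0.le).1 hb
  have hβ : 0 < β := hβ0.trans hlt'
  refine sInf_le ⟨β', hβ.trans hlt, rfl, hP.mono fun x => ?_⟩
  exact (Gen.mono_β goodV hβ0 hlt'.le p x).trans (transfer hβ hlt p p' hp x)

/-- monotonicity in `p` -/
theorem vc_anti {p p' : unitInterval} (h : p' ≤ p) : betac0 kV p ≤ betac0 kV p' := by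
  unfold betac0
  refine sInf_le_sInf ?_
  rintro b ⟨β, hβ, hb, hP⟩
  exact ⟨β, hβ, hb, hP.mono fun x => Gen.mono_p goodV h x⟩

/-- the comparison at the critical point -/
theorem vc_lim {p p' : unitInterval} {b β' : ℝ} (hb0 : 0 ≤ b)
    (h : betac0 kV p ≤ ENNReal.ofReal b) (hlt : b < β') (hp : kap b β' * p < p') :
    betac0 kV p' ≤ ENNReal.ofReal β' := by
  have hc : ContinuousAt (fun x : ℝ => kap x β' * (p : ℝ)) b :=
    (kap_cont hlt).mul continuousAt_const
  obtain ⟨x, hx, h1, h2⟩ := ((hc.eventually (gt_mem_nhds hp)).and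
    (eventually_lt_nhds hlt)).exists_gt
  refine vc_le (p := p) (β := x) (h.trans_lt ?_) h2 h1.le
  exact (ENNReal.ofReal_lt_ofReal_iff_of_nonneg hb0).2 hx

/-- **Explicit modulus of continuity.** -/
theorem vc_log {p p' : unitInterval} (hpp : (p' : ℝ) < p) {b l : ℝ}
    (hb0 : 0 < b) (h : betac0 kV p ≤ ENNReal.ofReal b)
    (hl : l = Real.log (Real.tanh (π ^ 2 * b / 4) * p / (p - p'))) (hl2 : π ^ 2 * b < 2 * l) :
    betac0 kV p' ≤ ENNReal.ofReal (2 * l * b / (2 * l - π ^ 2 * b)) := by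
  have hpi := Real.pi_pos
  have hp'0 := p'.2.1
  have hd : 0 < (p : ℝ) - p' := by linarith
  have hp0 : 0 < (p : ℝ) := lt_of_le_of_lt hp'0 hpp
  obtain ⟨T, hT⟩ : ∃ T, T = Real.tanh (π ^ 2 * b / 4) := ⟨_, rfl⟩
  have hT0 : 0 < T := by
    rw [hT, tanh_MM hb0]
    exact div_pos one_pos (MM_pos hb0)
  rw [← hT] at hl
  have hA : 0 < 2 * l - π ^ 2 * b := by linarith
  have hA' : 2 * l - π ^ 2 * b ≠ 0 := hA.ne'
  have hpb : 0 < π ^ 2 * b := by positivity
  obtain ⟨β', hβ'⟩ : ∃ β', β' = 2 * l * b / (2 * l - π ^ 2 * b) := ⟨_, rfl⟩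
  rw [← hβ']
  have hsub : β' - b = π ^ 2 * b * b / (2 * l - π ^ 2 * b) := by
    rw [hβ', eq_div_iff hA', sub_mul, div_mul_cancel₀ _ hA']
    ring
  have hsub0 : 0 < β' - b := by rw [hsub]; positivity
  have hlt : b < β' := by linarith
  refine vc_lim hb0.le h hlt ?_
  have hexp : Real.exp (-(π ^ 2 * b * β' / (2 * (β' - b)))) = (p - p') / (T * p) := by
    have e1 : π ^ 2 * b * β' / (2 * (β' - b)) = l := by
      rw [hsub, hβ']
      field_simp
    rw [e1, hl, Real.exp_neg, Real.exp_log (by positivity), inv_div]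
  have hsq : 1 < √(β' / (β' - b)) := by
    rw [Real.lt_sqrt (by norm_num), one_pow, one_lt_div hsub0]
    linarith
  unfold kap
  rw [hexp, ← hT]
  have e2 : (1 - T * √(β' / (β' - b)) * ((p - p') / (T * p))) * (p : ℝ) =
      p - √(β' / (β' - b)) * (p - p') := by
    field_simp
  rw [e2]
  have := mul_lt_mul_of_pos_right hsq hd
  linarith

theorem tanh_ge {y : ℝ} (hy : 0 < y) {b : ℝ} (hb : 0 < b) (hyb : y ≤ π ^ 2 * b / 2) :
    y / (2 * (1 + y)) ≤ Real.tanh (π ^ 2 * b / 4) := by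
  rw [tanh_MM hb]
  obtain ⟨r, hr⟩ : ∃ r, r = Real.exp (-(π ^ 2 * b / 2)) := ⟨_, rfl⟩
  have hr0 : 0 < r := by rw [hr]; exact Real.exp_pos _
  have hr1 : r * (1 + y) ≤ 1 := by
    have h1 : 1 + y ≤ Real.exp (π ^ 2 * b / 2) := by
      have := Real.add_one_le_exp (π ^ 2 * b / 2)
      linarith
    calc r * (1 + y) ≤ r * Real.exp (π ^ 2 * b / 2) := mul_le_mul_of_nonneg_left h1 hr0.le
      _ = 1 := by rw [hr, ← Real.exp_add, neg_add_cancel, Real.exp_zero]
  have hr2 : r < 1 := by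
    have : 0 < r * y := mul_pos hr0 hy
    linarith
  unfold MM
  rw [← hr, one_div_div, div_le_div_iff₀ (by positivity) (by positivity)]
  have h3 : 0 ≤ r * y := by positivity
  have h4 : y * r ≤ 1 - r := by linarith
  have h5 : y * (1 + r) ≤ (1 - r) * (2 * (1 + y)) := by
    have e : (1 - r) * (2 * (1 + y)) - y * (1 + r) = 2 * (1 - r) + y * (1 - 3 * r) := by ring
    have e2 : 0 ≤ 2 * (1 - r) + y * (1 - 3 * r) := by
      have e3 : 2 * (1 - r) + y * (1 - 3 * r) = 2 * (1 - r - y * r) + y * (1 - r) := by ring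
      rw [e3]
      have e4 : 0 ≤ y * (1 - r) := mul_nonneg hy.le (by linarith)
      linarith
    linarith
  exact h5

theorem contV : ContinuousOn (betac0 kV) {p : unitInterval | 0 < (p : ℝ)} := by
  have h : betac0 kV = betac kV := by
    funext p; exact betac0V p
  rw [h]
  exact Gen.cont_betac goodV

theorem fin_near (p0 : unitInterval) (h0 : 0 < (p0 : ℝ)) {b : ℝ}
    (hb : betac0 kV p0 < ENNReal.ofReal b) :
    ∃ δ : ℝ, 0 < δ ∧ ∀ p : unitInterval, |(p : ℝ) - p0| < δ →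
      betac0 kV p < ENNReal.ofReal b := by
  have hopen : {p : unitInterval | 0 < (p : ℝ)} ∈ 𝓝 p0 :=
    (isOpen_lt continuous_const continuous_subtype_val).mem_nhds h0
  have h1 : ContinuousAt (betac0 kV) p0 := (contV p0 h0).continuousAt hopen
  have h2 := h1.eventually (gt_mem_nhds hb)
  obtain ⟨δ, hδ, h3⟩ := Metric.eventually_nhds_iff.1 h2
  refine ⟨δ, hδ, fun p hp => h3 ?_⟩
  rw [Subtype.dist_eq, Real.dist_eq]
  exact hp

/-- **A logarithmic modulus of continuity.** -/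
theorem vc_locLog (p0 : unitInterval) (h0 : 0 < (p0 : ℝ)) (hfin : betac0 kV p0 ≠ ⊤) :
    ∃ K δ : ℝ, 0 < δ ∧ ∀ p p' : unitInterval, |(p : ℝ) - p0| < δ → |(p' : ℝ) - p0| < δ →
      p ≠ p' → betac0 kV p ≠ ⊤ ∧ 0 < Real.log (1 / |(p : ℝ) - p'|) ∧
        |(betac0 kV p).toReal - (betac0 kV p').toReal| ≤ K / Real.log (1 / |(p : ℝ) - p'|) := by
  obtain ⟨b0, hb0e⟩ : ∃ b, b = (betac0 kV p0).toReal := ⟨_, rfl⟩
  have hb0 : 0 ≤ b0 := by rw [hb0e]; exact ENNReal.toReal_nonneg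
  have hb0' : betac0 kV p0 = ENNReal.ofReal b0 := by rw [hb0e, ENNReal.ofReal_toReal hfin]
  obtain ⟨δ1, hδ1, hnear⟩ := fin_near p0 h0 (b := b0 + 1) (by
    rw [hb0']
    exact (ENNReal.ofReal_lt_ofReal_iff_of_nonneg hb0).2 (by linarith))
  obtain ⟨B, hB⟩ : ∃ B, B = b0 + 2 := ⟨_, rfl⟩
  have hB0 : 0 < B := by linarith
  have hpi := Real.pi_pos
  have hpi2 : 2 ≤ π ^ 2 := by
    have := Real.pi_gt_three
    nlinarith
  obtain ⟨L0, hL0⟩ : ∃ L0, L0 = 64 / (p0 : ℝ) + 2 * (π ^ 2 * B) + 1 := ⟨_, rfl⟩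
  have hBp : 0 < π ^ 2 * B := by positivity
  have h64 : 0 < 64 / (p0 : ℝ) := by positivity
  obtain ⟨δ, hδ⟩ : ∃ δ, δ = min δ1 (min ((p0 : ℝ) / 2) (Real.exp (-L0) / 2)) := ⟨_, rfl⟩
  have hδ0 : 0 < δ := by
    rw [hδ]
    exact lt_min hδ1 (lt_min (by positivity) (by positivity))
  have d1 : δ ≤ δ1 := by rw [hδ]; exact min_le_left _ _
  have d2 : δ ≤ p0 / 2 := by rw [hδ]; exact (min_le_right _ _).trans (min_le_left _ _)
  have d3 : δ ≤ Real.exp (-L0) / 2 := by
    rw [hδ]; exact (min_le_right _ _).trans (min_le_right _ _)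
  have main : ∀ p p' : unitInterval, |(p : ℝ) - p0| < δ → |(p' : ℝ) - p0| < δ →
      (p' : ℝ) < p → 0 < Real.log (1 / |(p : ℝ) - p'|) ∧
      |(betac0 kV p).toReal - (betac0 kV p').toReal| ≤
        (1 + 2 * (π ^ 2 * B ^ 2)) / Real.log (1 / |(p : ℝ) - p'|) := by
    intro p p' hp hp' hlt
    obtain ⟨hp1, hp2⟩ := abs_lt.1 hp
    obtain ⟨hp1', hp2'⟩ := abs_lt.1 hp'
    have hu0 : 0 < (p : ℝ) - p' := by linarith
    rw [abs_of_pos hu0]
    obtain ⟨L, hL⟩ : ∃ L, L = Real.log (1 / ((p : ℝ) - p')) := ⟨_, rfl⟩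
    rw [← hL]
    have hL' : L = -Real.log ((p : ℝ) - p') := by rw [hL, one_div, Real.log_inv]
    have hLL : L0 < L := by
      have h1 : Real.log ((p : ℝ) - p') < -L0 := by
        rw [Real.log_lt_iff_lt_exp hu0]
        linarith
      linarith
    have hL64 : 64 / (p0 : ℝ) ≤ L := by linarith
    have hL1 : 1 ≤ L := by linarith
    have hLB : 2 * (π ^ 2 * B) ≤ L := by linarith
    have hLpos : 0 < L := by linarith
    refine ⟨hLpos, ?_⟩
    have hf := hnear p (hp.trans_le d1)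
    have hf' := hnear p' (hp'.trans_le d1)
    have hft : betac0 kV p ≠ ⊤ := (hf.trans_le le_top).ne
    have hft' : betac0 kV p' ≠ ⊤ := (hf'.trans_le le_top).ne
    obtain ⟨c, hc⟩ : ∃ c, c = (betac0 kV p).toReal := ⟨_, rfl⟩
    have hc0 : 0 ≤ c := by rw [hc]; exact ENNReal.toReal_nonneg
    have hce : betac0 kV p = ENNReal.ofReal c := by rw [hc, ENNReal.ofReal_toReal hft]
    have hcB : c ≤ b0 + 1 := by
      rw [hc]
      exact ENNReal.toReal_le_of_le_ofReal (by linarith) hf.le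
    have hiL : 0 < 1 / L := by positivity
    have hiL1 : 1 / L ≤ 1 := by
      rw [div_le_one hLpos]
      exact hL1
    obtain ⟨b, hb⟩ : ∃ b, b = c + 1 / L := ⟨_, rfl⟩
    have hb0 : 0 < b := by linarith
    have hbB : b ≤ B := by linarith
    obtain ⟨T, hT⟩ : ∃ T, T = Real.tanh (π ^ 2 * b / 4) := ⟨_, rfl⟩
    have hTge : 1 / (2 * (L + 1)) ≤ T := by
      have h1 := tanh_ge hiL hb0 (by
        have : 2 * b ≤ π ^ 2 * b := mul_le_mul_of_nonneg_right hpi2 hb0.le
        linarith)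
      rw [← hT] at h1
      refine le_trans (le_of_eq ?_) h1
      field_simp
    have hT0 : 0 < T := lt_of_lt_of_le (by positivity) hTge
    have hpp0 : (p0 : ℝ) / 2 ≤ p := by linarith
    have hexp : Real.exp (-(L / 2)) ≤ T * p := by
      have h1 : L ^ 2 / 8 ≤ Real.exp (L / 2) := by
        have := Real.quadratic_le_exp_of_nonneg (x := L / 2) (by linarith)
        have e : (L / 2) ^ 2 / 2 = L ^ 2 / 8 := by ring
        linarith
      have h2 : 4 * (L + 1) ≤ p0 * Real.exp (L / 2) := by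
        have h3 : 64 ≤ L * p0 := by
          rw [div_le_iff₀ h0] at hL64
          exact hL64
        have h4 : p0 * (L ^ 2 / 8) ≤ p0 * Real.exp (L / 2) := mul_le_mul_of_nonneg_left h1 h0.le
        have h5 : p0 * (L ^ 2 / 8) = (L * p0) * L / 8 := by ring
        have h6 : 64 * L ≤ (L * p0) * L := mul_le_mul_of_nonneg_right h3 hLpos.le
        linarith
      have h3 : Real.exp (-(L / 2)) ≤ p0 / (4 * (L + 1)) := by
        rw [Real.exp_neg, inv_eq_one_div, div_le_div_iff₀ (Real.exp_pos _) (by positivity)]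
        linarith
      calc Real.exp (-(L / 2)) ≤ p0 / (4 * (L + 1)) := h3
        _ = 1 / (2 * (L + 1)) * (p0 / 2) := by field_simp; ring
        _ ≤ T * p := mul_le_mul hTge hpp0 (by positivity) hT0.le
    obtain ⟨l, hl⟩ : ∃ l, l = Real.log (T * p / (p - p')) := ⟨_, rfl⟩
    have hTp : 0 < T * p := lt_of_lt_of_le (Real.exp_pos _) hexp
    have hlge : L / 2 ≤ l := by
      have h1 : l = Real.log (T * p) + L := by
        rw [hl, Real.log_div hTp.ne' hu0.ne', hL']
        ring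
      have h2 : -(L / 2) ≤ Real.log (T * p) := (Real.le_log_iff_exp_le hTp).2 hexp
      linarith
    have hbb : π ^ 2 * b ≤ π ^ 2 * B := mul_le_mul_of_nonneg_left hbB (by positivity)
    have hden : L / 2 ≤ 2 * l - π ^ 2 * b := by linarith
    have hdenp : 0 < 2 * l - π ^ 2 * b := by linarith
    have key := vc_log (l := l) hlt hb0 (by
      rw [hce]
      exact ENNReal.ofReal_le_ofReal (by linarith)) (hl.trans (by rw [hT])) (by linarith)
    have hval : 2 * l * b / (2 * l - π ^ 2 * b) = b + π ^ 2 * b ^ 2 / (2 * l - π ^ 2 * b) := by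
      have hne := hdenp.ne'
      rw [div_eq_iff hne, add_mul, div_mul_cancel₀ _ hne]
      ring
    have hfr : π ^ 2 * b ^ 2 / (2 * l - π ^ 2 * b) ≤ π ^ 2 * B ^ 2 / (L / 2) := by
      refine div_le_div₀ (by positivity) ?_ (by positivity) hden
      exact mul_le_mul_of_nonneg_left (pow_le_pow_left₀ hb0.le hbB 2) (by positivity)
    have h7 : (betac0 kV p').toReal ≤ b + π ^ 2 * b ^ 2 / (2 * l - π ^ 2 * b) := by
      rw [← hval]
      refine ENNReal.toReal_le_of_le_ofReal ?_ key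
      rw [hval]
      positivity
    have h8 : c ≤ (betac0 kV p').toReal := by
      rw [hc]
      exact ENNReal.toReal_mono hft' (vc_anti (Subtype.coe_le_coe.1 hlt.le))
    have h9 : 1 / L + π ^ 2 * B ^ 2 / (L / 2) = (1 + 2 * (π ^ 2 * B ^ 2)) / L := by
      field_simp
    rw [← hc, abs_of_nonpos (by linarith)]
    linarith
  refine ⟨1 + 2 * (π ^ 2 * B ^ 2), δ, hδ0, fun p p' hp hp' hne => ⟨?_, ?_⟩⟩
  · exact ((hnear p (hp.trans_le d1)).trans_le le_top).ne
  · have hne' : (p : ℝ) ≠ p' := fun h => hne (Subtype.ext h)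
    rcases lt_or_gt_of_ne hne' with h | h
    · rw [abs_sub_comm (p : ℝ), abs_sub_comm (betac0 kV p).toReal]
      exact main p' p hp' hp h
    · exact main p p' hp hp' h

end Pool.Agent.Y155.BKT
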