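import Pool.Agent.H890.XY.XYa
import Pool.Agent.H890.XY.FLd
import Pool.Agent.H890.XY.FLp
import Pool.Agent.H890.XY.Exp
import Pool.Agent.H890.XY.Gseq
import Pool.Agent.H890.XY.Z0m

/-!
# Dilution of the XY model: explicit comparison and a Lipschitz bound
-/

set_option autoImplicit false

namespace Pool.Agent.Y155.BKT

open MeasureTheory Set Filter Topology Real
open Pool.Agent.H890.XY
open scoped ENNReal

/-- the factor of the comparison for the XY model -/
noncomputable def kapX (β β' : ℝ) : ℝ := β / (β + (β' - β) * Real.exp (-2 * β'))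

/-- quantitative iteration -/
theorem gseqq {β β' : ℝ} (hβ : 0 < β) (hlt : β < β') (G : ℝ → ℝ)
    (hm : ∀ s t, 0 ≤ s → s ≤ t → G s ≤ G t)
    (hG : ∀ s t h, 0 ≤ s → s ≤ t → 0 ≤ h →
      Real.exp (-2 * (t - s)) * (G (s + h) - G s) ≤ G (t + h) - G t) :
    (β' - β) * (Real.exp (-2 * β') * (G β - G 0)) ≤ β * (G β' - G β) := by
  obtain ⟨A, hA⟩ : ∃ A, A = Real.exp (-2 * β') * (G β - G 0) := ⟨_, rfl⟩
  have hA0 : 0 ≤ A := by
    rw [hA]
    exact mul_nonneg (Real.exp_pos _).le (sub_nonneg.2 (hm 0 β le_rfl hβ.le))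
  rw [← hA]
  refine le_of_forall_pos_le_add fun ε hε => ?_
  obtain ⟨N, hN⟩ := exists_nat_gt (β * A / ε)
  have hN0 : (0 : ℝ) < N := lt_of_le_of_lt (by positivity) hN
  obtain ⟨h, hh⟩ : ∃ h : ℝ, h = β / N := ⟨_, rfl⟩
  have hh0 : 0 < h := by rw [hh]; positivity
  have hNh : (N : ℝ) * h = β := by rw [hh]; field_simp
  have hhA : h * A ≤ ε := by
    rw [hh, div_mul_eq_mul_div, div_le_iff₀ hN0]
    rw [div_lt_iff₀ hε] at hN
    linarith
  have key : ∀ t : ℝ, β ≤ t → t ≤ β' → A ≤ N * (G (t + h) - G t) := by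
    intro t ht1 ht2
    have e1 : G β - G 0 = ∑ i ∈ Finset.range N, (G (((i + 1 : ℕ) : ℝ) * h) - G ((i : ℝ) * h)) := by
      rw [Finset.sum_range_sub (fun i : ℕ => G ((i : ℝ) * h)), hNh]
      simp
    rw [hA, e1, Finset.mul_sum]
    calc _ ≤ ∑ i ∈ Finset.range N, (G (t + h) - G t) := Finset.sum_le_sum fun i hi => ?_
      _ = _ := by simp [mul_sub]
    have hi' : (i : ℝ) + 1 ≤ N := by exact_mod_cast Finset.mem_range.1 hi
    have hi0 : 0 ≤ (i : ℝ) * h := by positivity
    have hi1 : (i : ℝ) * h ≤ β := by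
      rw [← hNh]
      exact mul_le_mul_of_nonneg_right (by linarith) hh0.le
    have h1 := hG ((i : ℝ) * h) t h hi0 (hi1.trans ht1) hh0.le
    have h2 : ((i + 1 : ℕ) : ℝ) * h = (i : ℝ) * h + h := by push_cast; ring
    have h3 := hm ((i : ℝ) * h) ((i : ℝ) * h + h) hi0 (by linarith)
    rw [h2]
    refine le_trans (mul_le_mul_of_nonneg_right (Real.exp_le_exp.2 ?_) (sub_nonneg.2 h3)) h1
    linarith
  obtain ⟨M, hM⟩ : ∃ M : ℕ, M = ⌊(β' - β) / h⌋₊ := ⟨_, rfl⟩
  have hMle : (M : ℝ) * h ≤ β' - β := by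
    have h1 : (M : ℝ) ≤ (β' - β) / h := by
      rw [hM]
      exact Nat.floor_le (div_nonneg (by linarith) hh0.le)
    rwa [le_div_iff₀ hh0] at h1
  have hMlt : β' - β ≤ ((M : ℝ) + 1) * h := by
    have h1 : (β' - β) / h < (M : ℝ) + 1 := by
      rw [hM]
      exact Nat.lt_floor_add_one _
    rw [div_lt_iff₀ hh0] at h1
    exact h1.le
  have hsum : (M : ℝ) * A ≤ N * (G (β + M * h) - G β) := by
    have e1 : G (β + M * h) - G β =
        ∑ j ∈ Finset.range M, (G (β + ((j + 1 : ℕ) : ℝ) * h) - G (β + (j : ℝ) * h)) := by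
      rw [Finset.sum_range_sub (fun j : ℕ => G (β + (j : ℝ) * h))]
      simp
    rw [e1, Finset.mul_sum]
    calc (M : ℝ) * A = ∑ _j ∈ Finset.range M, A := by simp
      _ ≤ _ := Finset.sum_le_sum fun j hj => ?_
    have hj' : (j : ℝ) ≤ M := by exact_mod_cast (Finset.mem_range.1 hj).le
    have h1 := key (β + (j : ℝ) * h) (by
      have : 0 ≤ (j : ℝ) * h := by positivity
      linarith) (by
      have := mul_le_mul_of_nonneg_right hj' hh0.le
      linarith)
    have h2 : β + ((j + 1 : ℕ) : ℝ) * h = β + (j : ℝ) * h + h := by push_cast; ring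
    rw [h2]
    exact h1
  have hMG : G (β + M * h) ≤ G β' := hm _ _ (by positivity) (by linarith)
  have h1 : (M : ℝ) * h * A ≤ β * (G β' - G β) := by
    have h2 := mul_le_mul_of_nonneg_left hsum hh0.le
    have h3 : h * (N * (G (β + M * h) - G β)) = β * (G (β + M * h) - G β) := by
      rw [← hNh]
      ring
    have h4 : β * (G (β + M * h) - G β) ≤ β * (G β' - G β) :=
      mul_le_mul_of_nonneg_left (by linarith) hβ.le
    linarith
  have h2 : (β' - β) * A ≤ ((M : ℝ) + 1) * h * A := mul_le_mul_of_nonneg_right hMlt hA0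
  linarith

theorem kapX_mem {β β' : ℝ} (hβ : 0 < β) (hlt : β < β') : 0 ≤ kapX β β' ∧ kapX β β' < 1 := by
  have h1 : 0 < (β' - β) * Real.exp (-2 * β') := mul_pos (by linarith) (Real.exp_pos _)
  unfold kapX
  refine ⟨by positivity, ?_⟩
  rw [div_lt_one (by positivity)]
  linarith

theorem oneX {β β' : ℝ} (hβ : 0 < β) (hlt : β < β') (G : ℝ → ℝ)
    (hm : ∀ s t, 0 ≤ s → s ≤ t → G s ≤ G t)
    (hG : ∀ s t h, 0 ≤ s → s ≤ t → 0 ≤ h →
      Real.exp (-2 * (t - s)) * (G (s + h) - G s) ≤ G (t + h) - G t) :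
    G β ≤ G 0 + kapX β β' * (G β' - G 0) := by
  have h1 := gseqq hβ hlt G hm hG
  have h2 : 0 < (β' - β) * Real.exp (-2 * β') := mul_pos (by linarith) (Real.exp_pos _)
  have h3 : G β - G 0 ≤ kapX β β' * (G β' - G 0) := by
    unfold kapX
    rw [div_mul_eq_mul_div, le_div_iff₀ (by positivity)]
    linarith
  linarith

theorem goodX' : Gen.Good kX := goodX flmulm flserm texp fldoublem gseq

/-- **Explicit comparison for the XY model.** -/
theorem transferX {β β' : ℝ} (hβ : 0 < β) (hlt : β < β') (p p' : unitInterval)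
    (hp : kapX β β' * p ≤ p') (x : Vx) : avg kX p β x ≤ avg kX p' β' x := by
  refine Gen.avg_le goodX' (fun Λ J B x u v => ?_) x
  have hs : FFk kX Λ J B x u v (kX β) ≤ FFk kX Λ J B x u v (fun _ => 1) +
      kapX β β' * (FFk kX Λ J B x u v (kX β') - FFk kX Λ J B x u v (fun _ => 1)) := by
    have hh := oneX hβ hlt (fun s => NX Λ J B x u v s / ZX Λ J B u v s)
      (fun s t hs hst => GX_mono Λ J B x u v flmulm flserm texp fldoublem hs hst)
      (fun s t h hs hst hh => GX_incr Λ J B x u v flmulm flserm texp fldoublem hs hst hh)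
    rw [kX_of_pos hβ, kX_of_pos (hβ.trans hlt)]
    unfold NX ZX at hh
    rw [eX_zero] at hh
    exact hh
  have hm := Gen.FF_one_le goodX' Λ J B x u v β'
  have hp0 := p.2.1
  have h2 : (p : ℝ) * FFk kX Λ J B x u v (kX β) ≤ p * (FFk kX Λ J B x u v (fun _ => 1) +
    kapX β β' * (FFk kX Λ J B x u v (kX β') - FFk kX Λ J B x u v (fun _ => 1))) :=
    mul_le_mul_of_nonneg_left hs hp0
  have h3 : kapX β β' * p * (FFk kX Λ J B x u v (kX β') - FFk kX Λ J B x u v (fun _ => 1)) ≤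
    p' * (FFk kX Λ J B x u v (kX β') - FFk kX Λ J B x u v (fun _ => 1)) :=
    mul_le_mul_of_nonneg_right hp (by linarith)
  linarith

theorem betac0X (p : unitInterval) : betac0 kX p = betac kX p :=
  betac0_eq z0m (kX_nonpos (lt_irrefl 0)) p

/-- comparison of the critical inverse temperatures -/
theorem bc_le {p p' : unitInterval} {β β' : ℝ} (h : betac0 kX p < ENNReal.ofReal β)
    (hlt : β < β') (hp : kapX β β' * p ≤ p') : betac0 kX p' ≤ ENNReal.ofReal β' := by
  rw [betac0X] at h ⊢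
  obtain ⟨b, ⟨β0, hβ0, rfl, hP⟩, hb⟩ := sInf_lt_iff.1 h
  have hlt' : β0 < β := (ENNReal.ofReal_lt_ofReal_iff_of_nonneg hβ0.le).1 hb
  have hβ : 0 < β := hβ0.trans hlt'
  refine sInf_le ⟨β', hβ.trans hlt, rfl, hP.mono fun x => ?_⟩
  exact (Gen.mono_β goodX' hβ0 hlt'.le p x).trans (transferX hβ hlt p p' hp x)

/-- monotonicity in `p` -/
theorem bc_anti {p p' : unitInterval} (h : p' ≤ p) : betac0 kX p ≤ betac0 kX p' := by
  unfold betac0
  refine sInf_le_sInf ?_
  rintro b ⟨β, hβ, hb, hP⟩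
  exact ⟨β, hβ, hb, hP.mono fun x => Gen.mono_p goodX' h x⟩

/-- **Lipschitz estimate.** -/
theorem bc_lip {p p' : unitInterval} (hp' : 0 < (p' : ℝ)) (hpp : p' ≤ p) (hfin : betac0 kX p ≠ ⊤)
    {b : ℝ} (hb : b = (betac0 kX p).toReal)
    (hsmall : b * (Real.exp (2 * (b + 1)) * ((p - p') / p')) < 1) :
    betac0 kX p' ≤ ENNReal.ofReal (b + b * (Real.exp (2 * (b + 1)) * ((p - p') / p'))) := by
  have hb0 : 0 ≤ b := by rw [hb]; exact ENNReal.toReal_nonneg
  have hbe : betac0 kX p = ENNReal.ofReal b := by rw [hb, ENNReal.ofReal_toReal hfin]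
  have hle : (p' : ℝ) ≤ p := hpp
  rcases hle.eq_or_lt with heq | hlt
  · have e : p' = p := Subtype.ext heq
    subst e
    rw [sub_self, zero_div, mul_zero, mul_zero, add_zero, hbe]
  obtain ⟨q, hq⟩ : ∃ q, q = Real.exp (2 * (b + 1)) * ((p - p') / p') := ⟨_, rfl⟩
  have hq0 : 0 < q := by
    rw [hq]
    exact mul_pos (Real.exp_pos _) (div_pos (by linarith) hp')
  rw [← hq] at hsmall ⊢
  have hq' : q * p' = Real.exp (2 * (b + 1)) * (p - p') := by
    rw [hq]
    field_simp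
  have hcont : Tendsto (fun t : ℝ => ENNReal.ofReal (b + b * q + t * (1 + q))) (𝓝[>] 0)
      (𝓝 (ENNReal.ofReal (b + b * q))) := by
    have h1 : Tendsto (fun t : ℝ => b + b * q + t * (1 + q)) (𝓝[>] 0) (𝓝 (b + b * q)) := by
      have h2 : Continuous (fun t : ℝ => b + b * q + t * (1 + q)) := by fun_prop
      have h3 := (h2.tendsto 0).mono_left (nhdsWithin_le_nhds (s := Set.Ioi (0 : ℝ)))
      simpa using h3
    exact ENNReal.tendsto_ofReal h1
  refine ge_of_tendsto hcont ?_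
  have hδ : 0 < (1 - b * q) / (1 + q) := div_pos (by linarith) (by linarith)
  filter_upwards [Ioo_mem_nhdsGT hδ] with t ht
  have ht0 : 0 < t := ht.1
  have ht1 : t * (1 + q) ≤ 1 - b * q := by
    have := ht.2
    rw [lt_div_iff₀ (by linarith)] at this
    exact this.le
  have e1 : b + b * q + t * (1 + q) = (b + t) + (b + t) * q := by ring
  rw [e1]
  have hbt : 0 < b + t := by linarith
  have hbtq : 0 < (b + t) * q := mul_pos hbt hq0
  refine bc_le (p := p) (β := b + t) ?_ (by linarith) ?_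
  · rw [hbe]
    exact (ENNReal.ofReal_lt_ofReal_iff_of_nonneg hb0).2 (by linarith)
  · unfold kapX
    have hle1 : (b + t) + (b + t) * q ≤ b + 1 := by linarith
    have hexp : Real.exp (-2 * (b + 1)) ≤ Real.exp (-2 * ((b + t) + (b + t) * q)) :=
      Real.exp_le_exp.2 (by linarith)
    have hee : Real.exp (-2 * (b + 1)) * Real.exp (2 * (b + 1)) = 1 := by
      rw [← Real.exp_add]
      have : -2 * (b + 1) + 2 * (b + 1) = 0 := by ring
      rw [this, Real.exp_zero]
    have e2 : (b + t) + (b + t) * q - (b + t) = (b + t) * q := by ring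
    rw [e2]
    have hE := Real.exp_pos (-2 * ((b + t) + (b + t) * q))
    have hpos : 0 < (b + t) + (b + t) * q * Real.exp (-2 * ((b + t) + (b + t) * q)) := by
      have := mul_pos hbtq hE
      linarith
    rw [div_mul_eq_mul_div, div_le_iff₀ hpos]
    have h5 : (b + t) * (p - p') ≤
        p' * ((b + t) * q * Real.exp (-2 * ((b + t) + (b + t) * q))) := by
      have h6 : (b + t) * (q * p') * Real.exp (-2 * (b + 1)) ≤
          (b + t) * (q * p') * Real.exp (-2 * ((b + t) + (b + t) * q)) :=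
        mul_le_mul_of_nonneg_left hexp (by positivity)
      have h7 : (b + t) * (q * p') * Real.exp (-2 * (b + 1)) = (b + t) * (p - p') := by
        rw [hq']
        linear_combination ((b + t) * (p - p')) * hee
      linarith
    linarith

/-- **The critical inverse temperature is locally Lipschitz.** -/
theorem bc_locLip (p0 : unitInterval) (h0 : 0 < (p0 : ℝ)) (hfin : betac0 kX p0 ≠ ⊤) :
    ∃ L δ : ℝ, 0 < δ ∧ ∀ p p' : unitInterval, |(p : ℝ) - p0| < δ → |(p' : ℝ) - p0| < δ →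
      betac0 kX p ≠ ⊤ ∧
        |(betac0 kX p).toReal - (betac0 kX p').toReal| ≤ L * |(p : ℝ) - p'| := by
  obtain ⟨b0, hb0e⟩ : ∃ b, b = (betac0 kX p0).toReal := ⟨_, rfl⟩
  have hb0 : 0 ≤ b0 := by rw [hb0e]; exact ENNReal.toReal_nonneg
  have hb0' : betac0 kX p0 = ENNReal.ofReal b0 := by rw [hb0e, ENNReal.ofReal_toReal hfin]
  obtain ⟨B, hB⟩ : ∃ B, B = b0 + 1 := ⟨_, rfl⟩
  obtain ⟨K, hK⟩ : ∃ K, K = B * Real.exp (2 * (B + 1)) := ⟨_, rfl⟩
  have hB0 : 0 < B := by linarith
  have hK0 : 0 < K := by rw [hK]; exact mul_pos hB0 (Real.exp_pos _)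
  have hKb : ∀ b : ℝ, 0 ≤ b → b ≤ B → b * Real.exp (2 * (b + 1)) ≤ K := by
    intro b h1 h2
    rw [hK]
    exact mul_le_mul h2 (Real.exp_le_exp.2 (by linarith)) (Real.exp_pos _).le hB0.le
  obtain ⟨δ, hδ⟩ : ∃ δ : ℝ, δ = p0 / (8 * (K + 1)) := ⟨_, rfl⟩
  have hδ0 : 0 < δ := by rw [hδ]; positivity
  have hδK : δ * (K + 1) = p0 / 8 := by
    rw [hδ]
    field_simp
  have hδp : δ ≤ p0 / 8 := by
    have : 0 ≤ δ * K := by positivity
    linarith
  -- the basic estimate
  have basic : ∀ (p p' : unitInterval) (b : ℝ), 0 ≤ b → b ≤ B → p' ≤ p → p0 / 2 ≤ (p' : ℝ) →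
      (p : ℝ) - p' ≤ 2 * δ → b * (Real.exp (2 * (b + 1)) * ((p - p') / p')) ≤
        2 * K / p0 * (p - p') ∧ b * (Real.exp (2 * (b + 1)) * ((p - p') / p')) < 1 := by
    intro p p' b h1 h2 h3 h4 h5
    have h3' : (p' : ℝ) ≤ p := h3
    have h6 := hKb b h1 h2
    have h7 : (p - p' : ℝ) / p' ≤ (p - p') / (p0 / 2) :=
      div_le_div_of_nonneg_left (by linarith) (by positivity) h4
    have h8 : 0 ≤ (p - p' : ℝ) / p' := div_nonneg (by linarith) (by linarith)
    have h9 : b * (Real.exp (2 * (b + 1)) * ((p - p') / p')) ≤ 2 * K / p0 * (p - p') := by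
      calc b * (Real.exp (2 * (b + 1)) * ((p - p') / p')) =
            b * Real.exp (2 * (b + 1)) * ((p - p') / p') := by ring
        _ ≤ K * ((p - p') / (p0 / 2)) := mul_le_mul h6 h7 h8 hK0.le
        _ = 2 * K / p0 * (p - p') := by field_simp
    refine ⟨h9, lt_of_le_of_lt h9 ?_⟩
    have h10 : 2 * K / p0 * (p - p') ≤ 2 * K / p0 * (2 * δ) :=
      mul_le_mul_of_nonneg_left h5 (by positivity)
    have h11 : 2 * K / p0 * (2 * δ) = 4 * (δ * K) / p0 := by ring
    have h12 : 4 * (δ * K) / p0 < 1 := by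
      rw [div_lt_one h0]
      linarith
    linarith
  -- finiteness near `p0`
  have hfinB : ∀ p : unitInterval, |(p : ℝ) - p0| < δ → betac0 kX p ≤ ENNReal.ofReal B := by
    intro p hp
    obtain ⟨hp1, hp2⟩ := abs_lt.1 hp
    rcases le_total p0 p with h | h
    · refine (bc_anti h).trans ?_
      rw [hb0']
      exact ENNReal.ofReal_le_ofReal (by linarith)
    · have h' : (p : ℝ) ≤ p0 := h
      obtain ⟨-, k2⟩ := basic p0 p b0 hb0 (by linarith) h (by linarith) (by linarith)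
      refine (bc_lip (by linarith) h hfin hb0e k2).trans (ENNReal.ofReal_le_ofReal ?_)
      linarith
  have main : ∀ p p' : unitInterval, |(p : ℝ) - p0| < δ → |(p' : ℝ) - p0| < δ → p' ≤ p →
      |(betac0 kX p).toReal - (betac0 kX p').toReal| ≤ 2 * K / p0 * |(p : ℝ) - p'| := by
    intro p p' hp hp' hle
    have hle' : (p' : ℝ) ≤ p := hle
    obtain ⟨hp1, hp2⟩ := abs_lt.1 hp
    obtain ⟨hp1', hp2'⟩ := abs_lt.1 hp'
    have hf := (hfinB p hp).trans_lt ENNReal.ofReal_lt_top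
    have hf' := (hfinB p' hp').trans_lt ENNReal.ofReal_lt_top
    obtain ⟨b, hb⟩ : ∃ b, b = (betac0 kX p).toReal := ⟨_, rfl⟩
    have hbn : 0 ≤ b := by rw [hb]; exact ENNReal.toReal_nonneg
    have hbB : b ≤ B := by
      rw [hb]
      exact ENNReal.toReal_le_of_le_ofReal hB0.le (hfinB p hp)
    obtain ⟨k1, k2⟩ := basic p p' b hbn hbB hle (by linarith) (by linarith)
    have h1 := bc_lip (by linarith) hle hf.ne hb k2
    have h2 : (betac0 kX p').toReal ≤ b + b * (Real.exp (2 * (b + 1)) * ((p - p') / p')) := by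
      refine ENNReal.toReal_le_of_le_ofReal ?_ h1
      have h3 : 0 ≤ (p - p' : ℝ) / p' := div_nonneg (by linarith) (by linarith)
      positivity
    have h3 : b ≤ (betac0 kX p').toReal := by
      rw [hb]
      exact ENNReal.toReal_mono hf'.ne (bc_anti hle)
    rw [← hb, abs_of_nonpos (by linarith), abs_of_nonneg (by linarith : (0 : ℝ) ≤ (p : ℝ) - p')]
    linarith
  refine ⟨2 * K / p0, δ, hδ0, fun p p' hp hp' =>
    ⟨((hfinB p hp).trans_lt ENNReal.ofReal_lt_top).ne, ?_⟩⟩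
  rcases le_total p' p with h | h
  · exact main p p' hp hp' h
  · rw [abs_sub_comm, abs_sub_comm (p : ℝ)]
    exact main p' p hp' hp h

end Pool.Agent.Y155.BKT
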